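import Pool.Agent.Helper37.KDB.Extra

/-! Project KDB, piece K2: Kraft inequalities for products. -/

set_option autoImplicit false

namespace KDB.I.K2

open MeasureTheory KDB
open scoped ENNReal

variable (p : Par)

theorem kr_prod {α β : Type} [Countable α] [Countable β] (f : α → ℝ≥0∞) (g : α → β → ℝ≥0∞)
    (hf : ∑' a, f a ≤ 1) (hg : ∀ a, ∑' b, g a b ≤ 1) :
    ∑' x : α × β, f x.1 * g x.1 x.2 ≤ 1 := by
  have h : ∑' x : α × β, f x.1 * g x.1 x.2 = ∑' a, ∑' b, f a * g a b :=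
    ENNReal.tsum_prod (f := fun a b => f a * g a b)
  rw [h]
  refine le_trans (ENNReal.tsum_le_tsum fun a => ?_) hf
  rw [ENNReal.tsum_mul_left]
  calc f a * ∑' b, g a b ≤ f a * 1 := by gcongr; exact hg a
    _ = f a := mul_one _

private theorem kr_pi_fin {α : Type} [Countable α] (n : ℕ) : ∀ (f : Fin n → α → ℝ≥0∞),
    (∀ i, ∑' a, f i a ≤ 1) → ∑' F : Fin n → α, ∏ i, f i (F i) ≤ 1 := by
  induction n with
  | zero =>
    intro f _
    rw [tsum_fintype]
    simp
  | succ n ih =>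
    intro f hf
    rw [← (Fin.consEquiv (fun _ : Fin (n + 1) => α)).tsum_eq]
    have h : ∀ x : α × (Fin n → α),
        ∏ i, f i (Fin.consEquiv (fun _ : Fin (n + 1) => α) x i) =
          f 0 x.1 * ∏ i : Fin n, f i.succ (x.2 i) := by
      intro x
      rw [Fin.prod_univ_succ]
      rfl
    calc ∑' x : α × (Fin n → α), ∏ i, f i (Fin.consEquiv (fun _ : Fin (n + 1) => α) x i)
        = ∑' x : α × (Fin n → α), f 0 x.1 * ∏ i : Fin n, f i.succ (x.2 i) :=
          tsum_congr h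
      _ ≤ 1 := kr_prod (f 0) (fun _ (F : Fin n → α) => ∏ i : Fin n, f i.succ (F i)) (hf 0)
          (fun _ => ih (fun i => f i.succ) (fun i => hf i.succ))

theorem kr_pi {ι α : Type} [Fintype ι] [Countable α] (f : ι → α → ℝ≥0∞)
    (hf : ∀ i, ∑' a, f i a ≤ 1) : ∑' F : ι → α, ∏ i, f i (F i) ≤ 1 := by
  classical
  let e := Fintype.equivFin ι
  let E : (Fin (Fintype.card ι) → α) ≃ (ι → α) := Equiv.arrowCongr e.symm (Equiv.refl α)
  have h : ∀ F : Fin (Fintype.card ι) → α,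
      ∏ i, f i (E F i) = ∏ j, f (e.symm j) (F j) := by
    intro F
    rw [← Equiv.prod_comp e.symm]
    refine Finset.prod_congr rfl fun j _ => ?_
    simp [E, Equiv.arrowCongr]
  calc ∑' F : ι → α, ∏ i, f i (F i)
      = ∑' F : Fin (Fintype.card ι) → α, ∏ i, f i (E F i) :=
        (E.tsum_eq (fun F : ι → α => ∏ i, f i (F i))).symm
    _ = ∑' F : Fin (Fintype.card ι) → α, ∏ j, f (e.symm j) (F j) := tsum_congr h
    _ ≤ 1 := kr_pi_fin _ (fun j => f (e.symm j)) (fun j => hf _)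

end KDB.I.K2
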