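import Pool.Agent.Helper37.KDB.Extra
import Pool.Agent.Helper37.KDB.St.P3
import Pool.Agent.Helper37.KDB.St.P7

/-! Project KDB, piece P8: product formula and Markov inequality. -/

set_option autoImplicit false

namespace KDB.I.P8

open MeasureTheory KDB
open scoped ENNReal

variable (p : Par)

/-- product formula and Markov inequality -/
theorem chernoff (hp : p.Ok) (hH : p.Hok) (N : ℕ) (F : ℕ → Nz p.d → ℝ≥0∞)
    (hF : ∀ j, Measurable (F j)) (a : ℕ → ℝ)
    (ha : ∀ j < N, ∫⁻ z, F j z ∂p.stepLaw j ≤ ENNReal.ofReal (Real.exp (a j)))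
    (E : Set (Fin N → Nz p.d)) (C : ℝ)
    (hE : ∀ om ∈ E, ENNReal.ofReal (Real.exp C) ≤ ∏ j : Fin N, F j (om j)) :
    p.pathLaw N E ≤ ENNReal.ofReal (Real.exp (∑ j ∈ Finset.range N, a j - C)) := by
  haveI hpr : ∀ j : ℕ, IsProbabilityMeasure (p.stepLaw j) := fun j => stepLaw_prob p hp hH j
  have hm : ∀ j : Fin N, Measurable fun om : Fin N → Nz p.d => F j (om j) := fun j =>
    (hF j).comp (measurable_pi_apply j)
  have h1 : ENNReal.ofReal (Real.exp C) * p.pathLaw N E ≤
      ∫⁻ om, ∏ j : Fin N, F j (om j) ∂p.pathLaw N := by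
    refine le_trans ?_ (mul_meas_ge_le_lintegral (μ := p.pathLaw N)
      (Finset.measurable_prod Finset.univ fun j _ => hm j) (ENNReal.ofReal (Real.exp C)))
    gcongr
    exact hE
  have h2 : ∫⁻ om, ∏ j : Fin N, F j (om j) ∂p.pathLaw N =
      ∏ j : Fin N, ∫⁻ z, F j z ∂p.stepLaw j := by
    have hind : ProbabilityTheory.iIndepFun (fun (j : Fin N) (om : Fin N → Nz p.d) => F j (om j))
        (Measure.pi fun j : Fin N => p.stepLaw j) :=
      ProbabilityTheory.iIndepFun_pi (X := fun j : Fin N => F j) fun j => (hF j).aemeasurable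
    have h3 := ProbabilityTheory.lintegral_prod_eq_prod_lintegral_of_indepFun Finset.univ
      (fun (j : Fin N) (om : Fin N → Nz p.d) => F j (om j)) hind hm
    show ∫⁻ om, ∏ j : Fin N, F j (om j) ∂(Measure.pi fun j : Fin N => p.stepLaw j) = _
    rw [h3]
    refine Finset.prod_congr rfl fun j _ => ?_
    exact (measurePreserving_eval (fun j : Fin N => p.stepLaw j) j).lintegral_comp (hF j)
  have h4 : ∏ j : Fin N, ∫⁻ z, F j z ∂p.stepLaw j ≤
      ENNReal.ofReal (Real.exp (∑ j ∈ Finset.range N, a j)) := by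
    calc ∏ j : Fin N, ∫⁻ z, F j z ∂p.stepLaw j
        ≤ ∏ j : Fin N, ENNReal.ofReal (Real.exp (a j)) :=
          Finset.prod_le_prod' fun j _ => ha j j.2
      _ = ENNReal.ofReal (∏ j : Fin N, Real.exp (a j)) :=
          (ENNReal.ofReal_prod_of_nonneg fun j _ => (Real.exp_pos _).le).symm
      _ = ENNReal.ofReal (Real.exp (∑ j ∈ Finset.range N, a j)) := by
          rw [← Real.exp_sum, Finset.sum_range]
  have h5 : ENNReal.ofReal (Real.exp C) * p.pathLaw N E ≤
      ENNReal.ofReal (Real.exp (∑ j ∈ Finset.range N, a j)) := (h1.trans_eq h2).trans h4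
  have h6 : ENNReal.ofReal (Real.exp (∑ j ∈ Finset.range N, a j)) =
      ENNReal.ofReal (Real.exp C) *
        ENNReal.ofReal (Real.exp (∑ j ∈ Finset.range N, a j - C)) := by
    rw [← ENNReal.ofReal_mul (Real.exp_pos _).le, ← Real.exp_add]
    congr 2
    ring
  rw [h6] at h5
  exact (ENNReal.mul_le_mul_iff_right
    (by simp [ENNReal.ofReal_eq_zero, Real.exp_pos]) ENNReal.ofReal_ne_top).1 h5

/-- additive functionals of the noise before time `t` -/
theorem chernoff_sum (hp : p.Ok) (hH : p.Hok) (N t : ℕ) (ht : t ≤ N) (g1 : ℕ → V p.d → ℝ)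
    (g2 : ℕ → ℕ → ℝ) (hg1 : ∀ j, Measurable (g1 j)) (h0 : ∀ j w, 0 ≤ g1 j w)
    (h0' : ∀ j k, 0 ≤ g2 j k)
    (hi : ∀ j < t, Integrable fun w => p.kd w * (Real.exp (g1 j w) - 1)) (a : ℕ → ℝ)
    (ha : ∀ j < t, p.h * (∫ w, p.kd w * (Real.exp (g1 j w) - 1)) +
        ∑ k ∈ Finset.range p.n, p.pring k j * (Real.exp (g2 j k) - 1) ≤ a j)
    (Phi : (ℕ → Nz p.d) → ℝ)
    (hPhi : ∀ om : ℕ → Nz p.d, Phi om ≤ ∑ j ∈ Finset.range t,
      (if (om j).lab = 0 then 0 else if (om j).lab = 1 then g1 j (om j).w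
        else g2 j ((om j).lab - 2))) (C : ℝ) :
    p.pathLaw N {om | C < Phi (p.exte N om)} ≤
      ENNReal.ofReal (Real.exp (∑ j ∈ Finset.range t, a j - C)) := by
  classical
  let G : ℕ → Nz p.d → ℝ := fun j z =>
    if z.lab = 0 then 0 else if z.lab = 1 then g1 j z.w else g2 j (z.lab - 2)
  have hG : ∀ j, Measurable (G j) := by
    intro j
    have hl : Measurable fun z : Nz p.d => z.lab := measurable_fst
    have hw : Measurable fun z : Nz p.d => z.w := measurable_snd.snd.fst
    refine Measurable.ite (hl (measurableSet_singleton 0)) measurable_const ?_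
    refine Measurable.ite (hl (measurableSet_singleton 1)) ((hg1 j).comp hw) ?_
    exact (measurable_of_countable fun n : ℕ => g2 j (n - 2)).comp hl
  let F : ℕ → Nz p.d → ℝ≥0∞ := fun j z =>
    if j < t then ENNReal.ofReal (Real.exp (G j z)) else 1
  have hF : ∀ j, Measurable (F j) := by
    intro j
    show Measurable fun z => if j < t then ENNReal.ofReal (Real.exp (G j z)) else 1
    by_cases hj : j < t
    · simp only [if_pos hj]
      exact (Real.measurable_exp.comp (hG j)).ennreal_ofReal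
    · simp only [if_neg hj]
      exact measurable_const
  let a' : ℕ → ℝ := fun j => if j < t then a j else 0
  have ha' : ∀ j < N, ∫⁻ z, F j z ∂p.stepLaw j ≤ ENNReal.ofReal (Real.exp (a' j)) := by
    intro j _
    by_cases hj : j < t
    · simp only [F, a', if_pos hj]
      refine (step_exp p hp hH j (g1 j) (g2 j) (hg1 j) (h0 j) (h0' j) (hi j hj)).trans ?_
      exact ENNReal.ofReal_le_ofReal (Real.exp_le_exp.2 (ha j hj))
    · haveI := stepLaw_prob p hp hH j
      simp only [F, a', if_neg hj]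
      simp
  have hsum : ∑ j ∈ Finset.range N, a' j = ∑ j ∈ Finset.range t, a j := by
    have h1 : ∑ j ∈ Finset.range t, a j = ∑ j ∈ Finset.range t, a' j :=
      Finset.sum_congr rfl fun j hj => by simp only [a', if_pos (Finset.mem_range.1 hj)]
    rw [h1]
    refine (Finset.sum_subset (Finset.range_subset_range.2 ht) fun j _ hj => ?_).symm
    simp only [a', if_neg (fun h => hj (Finset.mem_range.2 h))]
  have h := chernoff p hp hH N F hF a' ha' {om | C < Phi (p.exte N om)} C ?_
  · rw [hsum] at h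
    exact h
  · intro om hom
    have h1 : C < Phi (p.exte N om) := hom
    have h2 : C ≤ ∑ j ∈ Finset.range t, G j (p.exte N om j) := h1.le.trans (hPhi _)
    have h3 : ∏ j : Fin N, F j (om j) = ∏ j ∈ Finset.range N, F j (p.exte N om j) := by
      rw [Finset.prod_range]
      refine Finset.prod_congr rfl fun j _ => ?_
      have : p.exte N om j = om j := by
        unfold Par.exte
        rw [dif_pos j.2]
      rw [this]
    have h4 : ∏ j ∈ Finset.range N, F j (p.exte N om j) =
        ∏ j ∈ Finset.range t, F j (p.exte N om j) := by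
      refine (Finset.prod_subset (Finset.range_subset_range.2 ht) fun j _ hj => ?_).symm
      simp only [F, if_neg (fun h => hj (Finset.mem_range.2 h))]
    have h5 : ∏ j ∈ Finset.range t, F j (p.exte N om j) =
        ENNReal.ofReal (Real.exp (∑ j ∈ Finset.range t, G j (p.exte N om j))) := by
      rw [Real.exp_sum, ENNReal.ofReal_prod_of_nonneg fun j _ => (Real.exp_pos _).le]
      refine Finset.prod_congr rfl fun j hj => ?_
      simp only [F, if_pos (Finset.mem_range.1 hj)]
    rw [h3, h4, h5]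
    exact ENNReal.ofReal_le_ofReal (Real.exp_le_exp.2 h2)

end KDB.I.P8
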